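import Pool.Agent.Lib.MP_141d57_co.Coeff

/-!
Real-rootedness of all nonnegative combinations of the toric g-contribution polynomials.
-/

open Polynomial

namespace Pool.Agent.Results.MP_141d57_co.GammaNonneg

/-- The toric g-contribution polynomial `g_{n,j}(x)`. -/
noncomputable def toricG (n j : ℕ) : ℝ[X] :=
  ∑ k ∈ Finset.range (min (n / 2) (n - j) + 1),
    C ((catalan (n - k - j) : ℝ) * ((n - k).choose k : ℝ)) * (X - 1) ^ k

/-- A real polynomial is real-rooted if it is nonzero and all its complex roots are real. -/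
def RealRooted (p : ℝ[X]) : Prop := p ≠ 0 ∧ ∀ z : ℂ, aeval z p = 0 → z.im = 0

open Pool.Agent.Lib.MP_141d57_co in
lemma aeval_toricG (n m e j : ℕ) (hn : n = 2 * m + e) (he : e ≤ 1) (hm : m ≠ 0) (hj : j ≤ m)
    {z : ℂ} (hz : z ≠ 1) :
    aeval z (toricG n j) * (m.factorial : ℂ) =
      (z - 1) ^ m * ((2 : ℂ) ^ (2 * (m - j) + e) * aeval (-(z - 1)⁻¹) (S m (symF e m (j + 1)))) := by
  have hz1 : z - 1 ≠ 0 := sub_ne_zero.mpr hz
  have hmin : min (n / 2) (n - j) = m := by omega
  unfold toricG
  rw [hmin, map_sum]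
  have h1 : aeval (-(z - 1)⁻¹) (S m (symF e m (j + 1))) =
      ∑ i ∈ Finset.range (m + 1), (((m.choose i : ℝ) * symF e m (j + 1) i : ℝ) : ℂ) *
        ((z - 1)⁻¹) ^ i := by
    unfold S
    rw [map_sum]
    apply Finset.sum_congr rfl
    intro i _
    rw [map_mul, map_pow, aeval_X, aeval_C, Complex.coe_algebraMap, neg_pow]
    have h2 : ((-1 : ℂ) ^ i) * (-1) ^ i = 1 := by
      rw [← mul_pow]
      simp
    push_cast
    linear_combination ((m.choose i : ℂ) * (symF e m (j + 1) i : ℂ) * ((z - 1)⁻¹) ^ i) * h2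
  rw [h1, ← Finset.sum_range_reflect, Finset.sum_mul, Finset.mul_sum, Finset.mul_sum]
  apply Finset.sum_congr rfl
  intro i hi
  have hi' : i ≤ m := by have := Finset.mem_range.mp hi; omega
  have h3 := coeff_identity e m i j he hm hj hi'
  have h4 : m + 1 - 1 - i = m - i := by omega
  have h5 : n - (m - i) - j = i + e + (m - j) := by omega
  have h6 : n - (m - i) = i + e + m := by omega
  rw [h4, h5, h6, map_mul, aeval_C, map_pow, map_sub, aeval_X, map_one, Complex.coe_algebraMap]
  have h7 : (z - 1) ^ m * ((z - 1)⁻¹) ^ i = (z - 1) ^ (m - i) := by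
    have : (z - 1) ^ m = (z - 1) ^ (m - i) * (z - 1) ^ i := by
      rw [← pow_add]
      congr 1
      omega
    rw [this, mul_assoc, ← mul_pow, mul_inv_cancel₀ hz1, one_pow, mul_one]
  have h8 : (((catalan (i + e + (m - j)) : ℝ) * ((i + e + m).choose (m - i) : ℝ) *
      (m.factorial : ℝ) : ℝ) : ℂ) =
      ((2 ^ (2 * (m - j) + e) * ((m.choose i : ℝ) * symF e m (j + 1) i) : ℝ) : ℂ) := by
    rw [h3]
  push_cast at h8 ⊢
  rw [← h7]
  linear_combination ((z - 1) ^ m * ((z - 1)⁻¹) ^ i) * h8

/-- **Main theorem.** For every `n ≥ 1` and every nonnegative, not identically zero, vector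
`γ_0, …, γ_{⌊n/2⌋}`, the polynomial `∑_j γ_j g_{n,j}(x)` is real-rooted. -/
theorem result (n : ℕ) (hn : 1 ≤ n) (γ : ℕ → ℝ) (hγ : ∀ j ≤ n / 2, 0 ≤ γ j)
    (hγ0 : ∃ j ≤ n / 2, γ j ≠ 0) :
    RealRooted (∑ j ∈ Finset.range (n / 2 + 1), C (γ j) * toricG n j) := by
  -- value at 1 is positive
  have hval : 0 < (∑ j ∈ Finset.range (n / 2 + 1), C (γ j) * toricG n j).eval 1 := by
    rw [eval_finsetSum]
    have h1 : ∀ j ∈ Finset.range (n / 2 + 1), (C (γ j) * toricG n j).eval 1 =
        γ j * (catalan (n - j) : ℝ) := by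
      intro j _
      rw [eval_mul, eval_C]
      congr 1
      unfold toricG
      rw [eval_finsetSum, Finset.sum_eq_single 0]
      · simp
      · intro k _ hk
        simp [hk]
      · intro h
        simp at h
    rw [Finset.sum_congr rfl h1]
    have hc : ∀ j, (0 : ℝ) < (catalan (n - j) : ℝ) := by
      intro j
      have h2 := succ_mul_catalan_eq_centralBinom (n - j)
      have h3 := Nat.centralBinom_pos (n - j)
      rw [← h2] at h3
      exact_mod_cast Nat.pos_of_mul_pos_left h3
    apply Finset.sum_pos'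
    · intro j hj
      have hj' := Finset.mem_range.mp hj
      exact mul_nonneg (hγ j (by omega)) (hc j).le
    · obtain ⟨j, hj, hj0⟩ := hγ0
      refine ⟨j, Finset.mem_range.mpr (by omega), ?_⟩
      exact mul_pos (lt_of_le_of_ne (hγ j hj) (Ne.symm hj0)) (hc j)
  refine ⟨?_, ?_⟩
  · intro h
    rw [h] at hval
    simp at hval
  · intro z hz
    by_cases hz1 : z = 1
    · rw [hz1]
      simp
    have hz1' : z - 1 ≠ 0 := sub_ne_zero.mpr hz1
    obtain ⟨m, e, he, hne⟩ : ∃ m e, e ≤ 1 ∧ n = 2 * m + e :=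
      ⟨n / 2, n % 2, by omega, by omega⟩
    have hnm : n / 2 = m := by omega
    rw [hnm] at hz hγ hγ0 hval
    by_cases hm : m = 0
    · -- constant case
      subst hm
      have h1 : toricG n 0 = 1 := by
        have : n = 1 := by omega
        subst this
        unfold toricG
        simp
      simp only [zero_add, Finset.range_one, Finset.sum_singleton] at hz
      obtain ⟨j, hj, hj0⟩ := hγ0
      have hj00 : j = 0 := by omega
      subst hj00
      rw [h1, mul_one, aeval_C, Complex.coe_algebraMap] at hz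
      exact absurd (by exact_mod_cast hz) hj0
    · have h2 : (z - 1) ^ m * ∑ j ∈ Finset.range (m + 1),
          ((γ j * 2 ^ (2 * (m - j) + e) : ℝ) : ℂ) *
            aeval (-(z - 1)⁻¹) (Pool.Agent.Lib.MP_141d57_co.S m
              (Pool.Agent.Lib.MP_141d57_co.symF e m (j + 1))) = 0 := by
        have h3 : (aeval z (∑ j ∈ Finset.range (m + 1), C (γ j) * toricG n j)) *
            (m.factorial : ℂ) = 0 := by
          rw [hz, zero_mul]
        rw [map_sum, Finset.sum_mul] at h3
        rw [← h3, Finset.mul_sum]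
        apply Finset.sum_congr rfl
        intro j hj
        have hj' : j ≤ m := by have := Finset.mem_range.mp hj; omega
        rw [map_mul, aeval_C, mul_assoc, aeval_toricG n m e j hne he hm hj' hz1,
          Complex.coe_algebraMap]
        push_cast
        ring
      have h4 := (mul_eq_zero.mp h2).resolve_left (pow_ne_zero _ hz1')
      have h5 := Pool.Agent.Lib.MP_141d57_co.comb_real e hm
        (fun j => γ j * 2 ^ (2 * (m - j) + e))
        (fun j hj => mul_nonneg (hγ j hj) (by positivity))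
        (by
          obtain ⟨j, hj, hj0⟩ := hγ0
          exact ⟨j, hj, mul_ne_zero hj0 (by positivity)⟩) h4
      rw [Complex.neg_im, neg_eq_zero, Complex.inv_im] at h5
      have h6 : Complex.normSq (z - 1) ≠ 0 := (Complex.normSq_pos.mpr hz1').ne'
      have h7 := (div_eq_zero_iff.mp h5).resolve_right h6
      simpa using h7

end Pool.Agent.Results.MP_141d57_co.GammaNonneg
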